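import Pool.Agent.Q56.LM.VMul

/-! Project LM (helper55), job NEAR (helper56): the powers of an ideal with maximal radical are
large, linearly. -/

namespace Pool.Agent.Q56.LM

open Pool.Agent.Q55.LM Module

section

variable {B : Type} [CommRing B] [Algebra ℂ B] (g : Gen1 B) (n : ℕ)

/-- the element of `A` with given coefficients -/
noncomputable def amk (y : ℕ → ℕ → B) (hy : ∀ k j, y k j ∈ g.fil (n * j)) : AR g n :=
  PowerSeries.mk fun k => ⟨PowerSeries.mk (y k), fun j => by
    rw [PowerSeries.coeff_mk]; exact hy k j⟩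

theorem cf_amk (y : ℕ → ℕ → B) (hy : ∀ k j, y k j ∈ g.fil (n * j)) (k j : ℕ) :
    cf g n k j (amk g n y hy) = y k j := by
  change PowerSeries.coeff j ((PowerSeries.coeff k (amk g n y hy) : SR g n) :
    PowerSeries B) = _
  rw [amk, PowerSeries.coeff_mk]
  change PowerSeries.coeff j (PowerSeries.mk (y k)) = _
  rw [PowerSeries.coeff_mk]

/-- multiplication with `b τ ^ j T ^ k` -/
theorem cf_mon_mul (j : ℕ) (b : B) (hb : b ∈ g.fil (n * j)) (a : AR g n) (K J : ℕ) :
    cf g n K J (mon g n 0 j b hb * a) = if j ≤ J then b * cf g n K (J - j) a else 0 := by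
  rw [cf_mul, Finset.sum_eq_single (0, K)]
  · split_ifs with h
    · rw [Finset.sum_eq_single (j, J - j)]
      · rw [cf_mon, if_pos ⟨rfl, rfl⟩]
      · intro q hq hne
        have h' := Finset.HasAntidiagonal.mem_antidiagonal.1 hq
        rw [cf_mon, if_neg, zero_mul]
        rintro ⟨-, h1⟩
        exact hne (Prod.ext h1 (by simp; omega))
      · intro h'
        exact absurd (Finset.HasAntidiagonal.mem_antidiagonal.2
          (show (j, J - j).1 + (j, J - j).2 = J by simp; omega)) h'
    · refine Finset.sum_eq_zero fun q hq => ?_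
      have h' := Finset.HasAntidiagonal.mem_antidiagonal.1 hq
      rw [cf_mon, if_neg (fun h1 => by omega), zero_mul]
  · intro p hp hne
    have h' := Finset.HasAntidiagonal.mem_antidiagonal.1 hp
    refine Finset.sum_eq_zero fun q _ => ?_
    rw [cf_mon, if_neg, zero_mul]
    rintro ⟨h1, -⟩
    exact hne (Prod.ext h1 (by simp; omega))
  · intro h'
    exact absurd (Finset.HasAntidiagonal.mem_antidiagonal.2
      (show (0, K).1 + (0, K).2 = K by simp)) h'

theorem cf_X_pow_mul (N : ℕ) (a : AR g n) (K J : ℕ) :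
    cf g n K J ((PowerSeries.X : AR g n) ^ N * a) = if N ≤ K then cf g n (K - N) J a else 0 := by
  change PowerSeries.coeff J ((PowerSeries.coeff K ((PowerSeries.X : AR g n) ^ N * a) :
    SR g n) : PowerSeries B) = _
  rw [PowerSeries.coeff_X_pow_mul']
  split_ifs
  · rfl
  · exact map_zero _

theorem mul_decomp {V W : Submodule ℂ B} {R : ℕ} (e : Fin R → B)
    (he : V = Submodule.span ℂ (Set.range e)) {z : B} (hz : z ∈ V * W) :
    ∃ w : Fin R → B, (∀ i, w i ∈ W) ∧ z = ∑ i, e i * w i := by
  induction hz using Submodule.mul_induction_on' with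
  | mem_mul_mem v hv w hw =>
    rw [he, Submodule.mem_span_range_iff_exists_fun] at hv
    obtain ⟨c, rfl⟩ := hv
    refine ⟨fun i => c i • w, fun i => W.smul_mem _ hw, ?_⟩
    rw [Finset.sum_mul]
    refine Finset.sum_congr rfl fun i _ => ?_
    rw [smul_mul_assoc, mul_smul_comm]
  | add x _ y _ hx hy =>
    obtain ⟨w, hw, rfl⟩ := hx
    obtain ⟨w', hw', rfl⟩ := hy
    refine ⟨w + w', fun i => W.add_mem (hw i) (hw' i), ?_⟩
    rw [← Finset.sum_add_distrib]
    refine Finset.sum_congr rfl fun i _ => ?_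
    rw [Pi.add_apply, mul_add]

end

variable {B : Type} [CommRing B] [IsDedekindDomain B] [Algebra ℂ B]

theorem fil_ne_bot (g : Gen1 B) (i : ℕ) : g.fil i ≠ ⊥ := by
  intro h
  have h1 := g.one_mem i
  rw [h, Submodule.mem_bot] at h1
  exact one_ne_zero h1

theorem fil_mul_fil (h1 : S_Mu) (h2 : S_Dim) (h3 : S_Key) (g : Gen1 B) (i i' : ℕ) (hi : 2 ≤ i)
    (hii : i < i') : g.fil i * g.fil i' = g.fil (i + i') := by
  obtain ⟨hfin, hatt, -, -, -, -⟩ := h1 B g
  have hle : g.fil i * g.fil i' ≤ g.fil (i + i') :=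
    Submodule.mul_le.2 fun a ha b hb => g.mul_mem ha hb
  have hd := (h2 B g (g.fil i) (hfin i)).1 (by rw [g.finrank_fil i (by omega)]; exact hi)
  rw [g.finrank_fil i (by omega)] at hd
  have htop : g.top (g.fil i) ≤ i := by
    obtain ⟨v, hv, -, hv'⟩ := hatt (g.fil i) (hfin i) (fil_ne_bot g i)
    rw [← hv']
    exact (g.mem_fil i v).1 hv
  have hmu : g.mu (g.fil i) ≤ i := by
    unfold Gen1.mu
    omega
  have hk := h3 B g i' (by omega) [g.fil i] (by
    intro V hV
    rw [List.mem_singleton] at hV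
    rw [hV]
    exact ⟨fil_ne_bot g i, hfin i, by omega⟩)
  rw [List.map_cons, List.map_nil, List.sum_cons, List.sum_nil, List.prod_singleton,
    add_zero] at hk
  have := hfin (i + i')
  refine Submodule.eq_of_le_of_finrank_le hle ?_
  rw [g.finrank_fil _ (by omega)]
  omega

/-- one step -/
theorem step (h1 : S_Mu) (h2 : S_Dim) (h3 : S_Key) (g : Gen1 B) (n : ℕ) (hn : 1 ≤ n) {R : ℕ}
    (e : Fin R → B) (he : g.fil (n * 2) = Submodule.span ℂ (Set.range e))
    (he' : ∀ i, e i ∈ g.fil (n * 2)) (p : ℕ) (hp : 3 ≤ p) (x : AR g n)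
    (hx : ∀ k j, j < p + 2 → cf g n k j x = 0) :
    ∃ y : Fin R → AR g n, (∀ i k j, j < p → cf g n k j (y i) = 0) ∧
      x = ∑ i, mon g n 0 2 (e i) (he' i) * y i := by
  have key : ∀ k j, p + 2 ≤ j → ∃ w : Fin R → B, (∀ i, w i ∈ g.fil (n * (j - 2))) ∧
      cf g n k j x = ∑ i, e i * w i := by
    intro k j hj
    refine mul_decomp e he ?_
    rw [fil_mul_fil h1 h2 h3 g (n * 2) (n * (j - 2)) (by omega) ?_]
    · have h4 : n * 2 + n * (j - 2) = n * j := by rw [← mul_add]; congr 1; omega
      rw [h4]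
      exact cf_mem g n k j x
    · exact Nat.mul_lt_mul_of_pos_left (by omega) (by omega)
  choose! w hw hw' using key
  have hmem : ∀ i k j, (if p ≤ j then w k (j + 2) i else 0) ∈ g.fil (n * j) := by
    intro i k j
    split_ifs with h
    · exact hw k (j + 2) (by omega) i
    · exact Submodule.zero_mem _
  refine ⟨fun i => amk g n (fun k j => if p ≤ j then w k (j + 2) i else 0) (hmem i),
    fun i k j hj => ?_, ?_⟩
  · rw [cf_amk, if_neg (by omega)]
  · refine ar_ext g n fun k j => ?_
    rw [map_sum]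
    have h5 : ∀ i, cf g n k j (mon g n 0 2 (e i) (he' i) *
        amk g n (fun k j => if p ≤ j then w k (j + 2) i else 0) (hmem i)) =
        if p + 2 ≤ j then e i * w k j i else 0 := by
      intro i
      rw [cf_mon_mul, cf_amk]
      by_cases h : p + 2 ≤ j
      · rw [if_pos (by omega), if_pos (by omega), if_pos h]
        congr 3
        omega
      · rw [if_neg h]
        by_cases h' : 2 ≤ j
        · rw [if_pos h', if_neg (by omega), mul_zero]
        · rw [if_neg h']
    simp only [h5]
    by_cases h : p + 2 ≤ j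
    · rw [hw' k j h]
      refine Finset.sum_congr rfl fun i _ => ?_
      rw [if_pos h]
    · rw [hx k j (by omega), Finset.sum_eq_zero]
      intro i _
      rw [if_neg h]

theorem near (h1 : S_Mu) (h2 : S_Dim) (h3 : S_Key) : S_Near := by
  intro B _ _ _ g n hn I hI
  have hfin := (h1 B g).1 (n * 2)
  obtain ⟨R, e, he⟩ : ∃ (R : ℕ) (e : Fin R → B), Submodule.span ℂ (Set.range e) =
      g.fil (n * 2) := Submodule.fg_iff_exists_fin_generating_family.1
        (Module.Finite.iff_fg.1 hfin)
  have he' : ∀ i, e i ∈ g.fil (n * 2) := by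
    intro i
    rw [← he]
    exact Submodule.subset_span ⟨i, rfl⟩
  -- the finitely generated ideal
  set S : Set (AR g n) := {PowerSeries.X} ∪ Set.range (fun i => mon g n 0 2 (e i) (he' i))
    with hS
  have hSfin : S.Finite := (Set.finite_singleton _).union (Set.finite_range _)
  have hrad : Ideal.span S ≤ I.radical := by
    rw [Ideal.span_le]
    rintro a (ha | ⟨i, rfl⟩)
    · rw [Set.mem_singleton_iff] at ha
      rw [ha]
      refine hI _ ?_
      have h := cf_X_pow_mul g n 1 1 0 0
      rw [pow_one, mul_one, if_neg (by omega)] at h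
      exact h
    · refine hI _ ?_
      rw [cf_mon, if_neg (by omega)]
  obtain ⟨s, hs⟩ := Ideal.exists_pow_le_of_le_radical_of_fg hrad ⟨hSfin.toFinset, by simp⟩
  have hstep : ∀ (a : ℕ) (x : AR g n), (∀ k j, j < 2 * a + 3 → cf g n k j x = 0) →
      x ∈ Ideal.span S ^ a := by
    intro a
    induction a with
    | zero =>
      intro x _
      rw [pow_zero, Ideal.one_eq_top]
      exact Submodule.mem_top
    | succ a ih =>
      intro x hx
      obtain ⟨y, hy, hxy⟩ := step h1 h2 h3 g n hn e he.symm he' (2 * a + 3) (by omega) x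
        (fun k j hj => hx k j (by omega))
      rw [hxy, pow_succ']
      refine Ideal.sum_mem _ fun i _ => Ideal.mul_mem_mul ?_ (ih (y i) (hy i))
      exact Ideal.subset_span (Or.inr ⟨i, rfl⟩)
  refine ⟨2 * s + 3, by omega, fun m hm x hx => ?_⟩
  set N := (2 * s + 3) * m with hN
  have hN1 : 2 * (s * m) + 3 ≤ N := by
    rw [hN]
    nlinarith
  have hpow : Ideal.span S ^ (s * m) ≤ I ^ m := by
    rw [pow_mul]
    exact Ideal.pow_right_mono hs m
  refine hpow ?_
  -- the shifted series
  set y : AR g n := amk g n (fun k j => cf g n (k + N) j x) (fun k j => cf_mem g n _ j x)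
    with hy
  have hxy : x = (x - PowerSeries.X ^ N * y) + PowerSeries.X ^ N * y := by ring
  rw [hxy]
  refine Ideal.add_mem _ (hstep _ _ fun k j hj => ?_) (Ideal.mul_mem_right _ _ ?_)
  · rw [map_sub, cf_X_pow_mul, hy, cf_amk]
    by_cases h : N ≤ k
    · rw [if_pos h, Nat.sub_add_cancel h, sub_self]
    · rw [if_neg h, sub_zero]
      exact hx k (by omega) j (by omega)
  · refine Ideal.pow_le_pow_right (show s * m ≤ N by omega) ?_
    exact Ideal.pow_mem_pow (show (PowerSeries.X : AR g n) ∈ Ideal.span S from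
      Ideal.subset_span (Or.inl rfl)) N

end Pool.Agent.Q56.LM
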