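import Pool.Agent.Q55.LM.Stm

/-! Project LM (helper55), job VMUL (helper56): calculus of leading coefficients in `S[[T]]`. -/

namespace Pool.Agent.Q56.LM

open Pool.Agent.Q55.LM Module

variable {B : Type} [CommRing B] [Algebra ℂ B] (g : Gen1 B) (n : ℕ)

/-- convolution formula for the coefficients -/
theorem cf_mul (K J : ℕ) (a b : AR g n) :
    cf g n K J (a * b) = ∑ p ∈ Finset.HasAntidiagonal.antidiagonal K, ∑ q ∈ Finset.HasAntidiagonal.antidiagonal J,
      cf g n p.1 q.1 a * cf g n p.2 q.2 b := by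
  change PowerSeries.coeff J ((PowerSeries.coeff K (a * b) : SR g n) : PowerSeries B) = _
  rw [PowerSeries.coeff_mul]
  have h : ((∑ p ∈ Finset.HasAntidiagonal.antidiagonal K, PowerSeries.coeff p.1 a * PowerSeries.coeff p.2 b :
      SR g n) : PowerSeries B) = ∑ p ∈ Finset.HasAntidiagonal.antidiagonal K,
      ((PowerSeries.coeff p.1 a : SR g n) : PowerSeries B) *
        ((PowerSeries.coeff p.2 b : SR g n) : PowerSeries B) := by
    rw [AddSubmonoidClass.coe_finsetSum]
    rfl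
  rw [h, map_sum]
  refine Finset.sum_congr rfl fun p _ => ?_
  rw [PowerSeries.coeff_mul]
  rfl

theorem ar_ext {a b : AR g n} (h : ∀ k j, cf g n k j a = cf g n k j b) : a = b := by
  refine PowerSeries.ext fun k => ?_
  apply Subtype.ext
  exact PowerSeries.ext fun j => h k j

/-- the element `b τ ^ j` of `S` -/
noncomputable def smon (j : ℕ) (b : B) (hb : b ∈ g.fil (n * j)) : SR g n :=
  ⟨PowerSeries.monomial j b, by
    intro i
    rw [PowerSeries.coeff_monomial]
    split_ifs with h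
    · rw [h]; exact hb
    · exact Submodule.zero_mem _⟩

/-- the element `b τ ^ j T ^ k` of `A` -/
noncomputable def mon (k j : ℕ) (b : B) (hb : b ∈ g.fil (n * j)) : AR g n :=
  PowerSeries.monomial k (smon g n j b hb)

theorem cf_mon (k j : ℕ) (b : B) (hb : b ∈ g.fil (n * j)) (k' j' : ℕ) :
    cf g n k' j' (mon g n k j b hb) = if k' = k ∧ j' = j then b else 0 := by
  change PowerSeries.coeff j' ((PowerSeries.coeff k' (PowerSeries.monomial k
    (smon g n j b hb)) : SR g n) : PowerSeries B) = _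
  rw [PowerSeries.coeff_monomial]
  by_cases hk : k' = k
  · rw [if_pos hk]
    change PowerSeries.coeff j' (PowerSeries.monomial j b) = _
    rw [PowerSeries.coeff_monomial]
    by_cases hj : j' = j
    · rw [if_pos hj, if_pos ⟨hk, hj⟩]
    · rw [if_neg hj, if_neg (fun h => hj h.2)]
  · rw [if_neg hk, if_neg (fun h => hk h.1)]
    exact map_zero _

theorem cf_mem (k j : ℕ) (a : AR g n) : cf g n k j a ∈ g.fil (n * j) :=
  (PowerSeries.coeff k a : SR g n).2 j

theorem vv_le (I : Ideal (AR g n)) (k j : ℕ) : VV g n I k j ≤ g.fil (n * j) := by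
  rintro _ ⟨a, _, rfl⟩
  exact cf_mem g n k j a

theorem mem_vv {I : Ideal (AR g n)} {k j : ℕ} {b : B} :
    b ∈ VV g n I k j ↔ ∃ a ∈ I, a ∈ FF g n k j ∧ cf g n k j a = b := by
  constructor
  · rintro ⟨a, ha, rfl⟩
    exact ⟨a, ha.1, ha.2, rfl⟩
  · rintro ⟨a, h1, h2, rfl⟩
    exact ⟨a, ⟨h1, h2⟩, rfl⟩

theorem ff_mul {k j k' j' : ℕ} {a b : AR g n} (ha : a ∈ FF g n k j) (hb : b ∈ FF g n k' j') :
    a * b ∈ FF g n (k + k') (j + j') := by
  refine ⟨fun K J hK => ?_, fun J hJ => ?_⟩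
  · rw [cf_mul]
    refine Finset.sum_eq_zero fun p hp => Finset.sum_eq_zero fun q _ => ?_
    have h := Finset.HasAntidiagonal.mem_antidiagonal.1 hp
    by_cases h1 : p.1 < k
    · rw [ha.1 _ _ h1, zero_mul]
    · rw [hb.1 p.2 q.2 (by omega), mul_zero]
  · rw [cf_mul]
    refine Finset.sum_eq_zero fun p hp => Finset.sum_eq_zero fun q hq => ?_
    have h := Finset.HasAntidiagonal.mem_antidiagonal.1 hp
    have h' := Finset.HasAntidiagonal.mem_antidiagonal.1 hq
    by_cases h1 : p.1 < k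
    · rw [ha.1 _ _ h1, zero_mul]
    by_cases h2 : p.2 < k'
    · rw [hb.1 _ _ h2, mul_zero]
    have h3 : p.1 = k := by omega
    have h4 : p.2 = k' := by omega
    by_cases h5 : q.1 < j
    · rw [h3, ha.2 _ h5, zero_mul]
    · rw [h4, hb.2 q.2 (by omega), mul_zero]

theorem cf_mul_ff {k j k' j' : ℕ} {a b : AR g n} (ha : a ∈ FF g n k j)
    (hb : b ∈ FF g n k' j') :
    cf g n (k + k') (j + j') (a * b) = cf g n k j a * cf g n k' j' b := by
  rw [cf_mul, Finset.sum_eq_single (k, k'), Finset.sum_eq_single (j, j')]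
  · intro q hq hne
    have h' := Finset.HasAntidiagonal.mem_antidiagonal.1 hq
    by_cases h5 : q.1 < j
    · rw [ha.2 _ h5, zero_mul]
    by_cases h6 : q.2 < j'
    · rw [hb.2 _ h6, mul_zero]
    exact absurd (Prod.ext (by simp; omega) (by simp; omega)) hne
  · intro h
    exact absurd (Finset.HasAntidiagonal.mem_antidiagonal.2
      (show (j, j').1 + (j, j').2 = j + j' from rfl)) h
  · intro p hp hne
    have h := Finset.HasAntidiagonal.mem_antidiagonal.1 hp
    refine Finset.sum_eq_zero fun q _ => ?_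
    by_cases h5 : p.1 < k
    · rw [ha.1 _ _ h5, zero_mul]
    by_cases h6 : p.2 < k'
    · rw [hb.1 _ _ h6, mul_zero]
    exact absurd (Prod.ext (by simp; omega) (by simp; omega)) hne
  · intro h
    exact absurd (Finset.HasAntidiagonal.mem_antidiagonal.2
      (show (k, k').1 + (k, k').2 = k + k' from rfl)) h

theorem mon_mem_ff (k j : ℕ) (b : B) (hb : b ∈ g.fil (n * j)) :
    mon g n k j b hb ∈ FF g n k j := by
  refine ⟨fun k' j' h => ?_, fun j' h => ?_⟩
  · rw [cf_mon, if_neg (fun h' => by omega)]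
  · rw [cf_mon, if_neg (fun h' => by omega)]

theorem vv_mul (I I' : Ideal (AR g n)) (k j k' j' : ℕ) :
    VV g n I k j * VV g n I' k' j' ≤ VV g n (I * I') (k + k') (j + j') := by
  rw [Submodule.mul_le]
  intro x hx y hy
  obtain ⟨a, ha, ha', rfl⟩ := (mem_vv g n).1 hx
  obtain ⟨b, hb, hb', rfl⟩ := (mem_vv g n).1 hy
  exact (mem_vv g n).2 ⟨a * b, Ideal.mul_mem_mul ha hb, ff_mul g n ha' hb',
    cf_mul_ff g n ha' hb'⟩

theorem vv_shift (I : Ideal (AR g n)) (k j c : ℕ) :
    g.fil (n * c) * VV g n I k j ≤ VV g n I k (j + c) := by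
  rw [Submodule.mul_le]
  intro x hx y hy
  obtain ⟨b, hb, hb', rfl⟩ := (mem_vv g n).1 hy
  have h1 := ff_mul g n (mon_mem_ff g n 0 c x hx) hb'
  have h2 := cf_mul_ff g n (mon_mem_ff g n 0 c x hx) hb'
  rw [cf_mon, if_pos ⟨rfl, rfl⟩] at h2
  rw [zero_add, add_comm c j] at h1 h2
  exact (mem_vv g n).2 ⟨_, I.mul_mem_left _ hb, h1, h2⟩

theorem vv_mono (I I' : Ideal (AR g n)) (k j : ℕ) (h : I ≤ I') :
    VV g n I k j ≤ VV g n I' k j := by
  intro x hx
  obtain ⟨a, ha, ha', rfl⟩ := (mem_vv g n).1 hx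
  exact (mem_vv g n).2 ⟨a, h ha, ha', rfl⟩

theorem vv_succ (I : Ideal (AR g n)) (k j : ℕ) : VV g n I k j ≤ VV g n I (k + 1) j := by
  intro y hy
  obtain ⟨b, hb, hb', rfl⟩ := (mem_vv g n).1 hy
  have h1 := ff_mul g n (mon_mem_ff g n 1 0 1 (g.one_mem _)) hb'
  have h2 := cf_mul_ff g n (mon_mem_ff g n 1 0 1 (g.one_mem _)) hb'
  rw [cf_mon, if_pos ⟨rfl, rfl⟩, one_mul] at h2
  rw [zero_add, add_comm 1 k] at h1 h2
  exact (mem_vv g n).2 ⟨_, I.mul_mem_left _ hb, h1, h2⟩

theorem vv_near (N : ℕ) (I : Ideal (AR g n)) (h : Near g n N I) (k j : ℕ)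
    (hkj : N ≤ k ∨ N ≤ j) : VV g n I k j = g.fil (n * j) := by
  refine le_antisymm (vv_le g n I k j) fun b hb => ?_
  refine (mem_vv g n).2 ⟨mon g n k j b hb, h _ fun k' hk' j' hj' => ?_, mon_mem_ff g n k j b hb,
    ?_⟩
  · rw [cf_mon, if_neg (fun h' => by omega)]
  · rw [cf_mon, if_pos ⟨rfl, rfl⟩]

theorem vv_list (I : Ideal (AR g n)) (L : List (ℕ × ℕ)) :
    (L.map fun p => VV g n I p.1 p.2).prod ≤
      VV g n (I ^ L.length) (L.map Prod.fst).sum (L.map Prod.snd).sum := by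
  induction L with
  | nil =>
    simp only [List.map_nil, List.prod_nil, List.length_nil, List.sum_nil]
    rw [Submodule.one_le]
    refine (mem_vv g n).2 ⟨mon g n 0 0 1 (g.one_mem _), ?_, mon_mem_ff g n 0 0 1 _, ?_⟩
    · rw [pow_zero, Ideal.one_eq_top]
      exact Submodule.mem_top
    · rw [cf_mon, if_pos ⟨rfl, rfl⟩]
  | cons p L ih =>
    simp only [List.map_cons, List.prod_cons, List.length_cons, List.sum_cons]
    rw [pow_succ' I]
    exact (mul_le_mul' le_rfl ih).trans (vv_mul g n _ _ _ _ _ _)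

theorem vmul : S_VMul := fun _ _ _ _ g n =>
  ⟨fun I k j => vv_le g n I k j, fun I I' k j k' j' => vv_mul g n I I' k j k' j',
    fun I k j c => vv_shift g n I k j c, fun I k j => vv_succ g n I k j,
    fun N I h k j hkj => vv_near g n N I h k j hkj, fun I L => vv_list g n I L,
    fun I I' k j h => vv_mono g n I I' k j h⟩

end Pool.Agent.Q56.LM
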